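import Pool.Agent.W507.SL.Upper

/-!
# Slippery conjecture: the lower bound

Explicit homeomorphisms with translation numbers `1/11` and `1/9` for which the word has translation
number at least `13/2`.
-/

set_option autoImplicit false

open CircleDeg1Lift

namespace Pool.Agent.W507.SL

/-- interpolation of an increasing sequence -/
lemma exists_interp (n : ℕ) (hn : 0 < n) (F : ℤ → ℝ) (hF : StrictMono F)
    (hp : ∀ i, F (i + n) = F i + 1) :
    ∃ A : CircleDeg1Liftˣ, ∀ i : ℤ, (A : CircleDeg1Lift) ((i : ℝ) / n) = F i := by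
  have hn0 : (0 : ℝ) < n := by exact_mod_cast hn
  set L : ℝ → ℝ := fun x => F ⌊x⌋ + Int.fract x * (F (⌊x⌋ + 1) - F ⌊x⌋) with hL
  have hpos : ∀ i, 0 < F (i + 1) - F i := fun i => sub_pos.2 (hF (by omega))
  have hLi : ∀ i : ℤ, L i = F i := by intro i; simp [hL]
  have hge : ∀ x, F ⌊x⌋ ≤ L x := fun x => by
    have := mul_nonneg (Int.fract_nonneg x) (hpos ⌊x⌋).le
    simp only [hL]; linarith
  have hlt : ∀ x, L x < F (⌊x⌋ + 1) := fun x => by
    have := mul_lt_mul_of_pos_right (Int.fract_lt_one x) (hpos ⌊x⌋)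
    simp only [hL]; linarith
  have hmono : StrictMono L := by
    intro x y hxy
    rcases eq_or_lt_of_le (Int.floor_mono hxy.le) with h | h
    · have h1 : Int.fract x < Int.fract y := by
        unfold Int.fract; rw [h]; linarith
      have := mul_lt_mul_of_pos_right h1 (hpos ⌊y⌋)
      simp only [hL]; rw [h]; linarith
    · calc L x < F (⌊x⌋ + 1) := hlt x
        _ ≤ F ⌊y⌋ := hF.monotone (by omega)
        _ ≤ L y := hge y
  have hper : ∀ x, L (x + n) = L x + 1 := by
    intro x
    have h1 : ⌊x + (n : ℝ)⌋ = ⌊x⌋ + n := by exact_mod_cast Int.floor_add_natCast x n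
    have h2 : Int.fract (x + (n : ℝ)) = Int.fract x := Int.fract_add_natCast x n
    simp only [hL]
    rw [h1, h2, show ⌊x⌋ + (n : ℤ) + 1 = (⌊x⌋ + 1) + n by ring, hp, hp]
    ring
  have hFs : ∀ s : ℤ, F (n * s) = F 0 + s := by
    intro s
    induction s using Int.induction_on with
    | zero => simp
    | succ s ih =>
      rw [show (n : ℤ) * ((s : ℤ) + 1) = n * s + n by ring, hp, ih]; push_cast; ring
    | pred s ih =>
      have := hp (n * (-(s : ℤ) - 1))
      rw [show (n : ℤ) * (-(s : ℤ) - 1) + n = n * (-s) by ring, ih] at this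
      push_cast at this ⊢
      linarith
  have hsurj : Function.Surjective L := by
    intro y
    obtain ⟨i, hi, hi2⟩ := Int.exists_greatest_of_bdd (P := fun i => F i ≤ y)
      ⟨n * (⌊y - F 0⌋ + 1), fun z hz => by
        by_contra hc
        have h1 := hF.monotone (not_le.1 hc).le
        rw [hFs] at h1
        have h2 := Int.lt_floor_add_one (y - F 0)
        push_cast at h1
        linarith⟩
      ⟨n * ⌊y - F 0⌋, by
        show F (n * ⌊y - F 0⌋) ≤ y
        rw [hFs]
        have := Int.floor_le (y - F 0)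
        linarith⟩
    have h3 : y < F (i + 1) := by
      by_contra hc
      have := hi2 (i + 1) (not_lt.1 hc)
      omega
    have hd := hpos i
    set t := (y - F i) / (F (i + 1) - F i) with ht
    have ht0 : 0 ≤ t := div_nonneg (by linarith) hd.le
    have ht1 : t < 1 := by rw [ht, div_lt_one hd]; linarith
    refine ⟨i + t, ?_⟩
    have h4 : ⌊(i : ℝ) + t⌋ = i := by
      rw [Int.floor_eq_iff]; constructor <;> linarith
    have h5 : Int.fract ((i : ℝ) + t) = t := by unfold Int.fract; rw [h4]; ring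
    simp only [hL]
    rw [h4, h5, ht]
    field_simp
    ring
  set f : CircleDeg1Lift := ⟨⟨fun x => L (n * x), fun x y hxy =>
    hmono.monotone (mul_le_mul_of_nonneg_left hxy hn0.le)⟩, fun x => by
      show L (n * (x + 1)) = L (n * x) + 1
      rw [mul_add, mul_one, hper]⟩ with hf
  have hfa : ∀ x, f x = L (n * x) := fun x => rfl
  have hb : Function.Bijective f := by
    constructor
    · intro x y hxy
      rw [hfa, hfa] at hxy
      exact mul_left_cancel₀ hn0.ne' (hmono.injective hxy)
    · intro y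
      obtain ⟨x, hx⟩ := hsurj y
      exact ⟨x / n, by rw [hfa, mul_div_cancel₀ _ hn0.ne']; exact hx⟩
  obtain ⟨A, hA⟩ := isUnit_iff_bijective.2 hb
  refine ⟨A, fun i => ?_⟩
  rw [hA, hfa, mul_div_cancel₀ _ hn0.ne', hLi]

/-- a homeomorphism with prescribed values -/
lemma exists_unit (n : ℕ) (hn : 0 < n) (u v : ℤ → ℝ) (hu : StrictMono u) (hv : StrictMono v)
    (pu : ∀ i, u (i + n) = u i + 1) (pv : ∀ i, v (i + n) = v i + 1) :
    ∃ a : CircleDeg1Liftˣ, ∀ i : ℤ, (a : CircleDeg1Lift) (u i) = v i := by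
  obtain ⟨A, hA⟩ := exists_interp n hn u hu pu
  obtain ⟨B, hB⟩ := exists_interp n hn v hv pv
  refine ⟨B * A⁻¹, fun i => ?_⟩
  rw [Units.val_mul, mul_apply, ← hA i, units_inv_apply_apply, hB]

/-- a homeomorphism with a periodic orbit, steep to the right of its points -/
lemma exists_steep (n : ℕ) (hn : 0 < n) (X : ℤ → ℝ) (e : ℝ) (he : 0 < e)
    (hX : ∀ k, X k + 2 * e < X (k + 1)) (pX : ∀ k, X (k + n) = X k + 1) :
    ∃ a : CircleDeg1Liftˣ, (∀ k : ℤ, (a : CircleDeg1Lift) (X k) = X (k + 1)) ∧
      ∀ k : ℤ, (a : CircleDeg1Lift) (X k + e) = X (k + 2) - e := by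
  set u : ℤ → ℝ := fun i => if i % 2 = 0 then X (i / 2) else X (i / 2) + e with hu
  set v : ℤ → ℝ := fun i => if i % 2 = 0 then X (i / 2 + 1) else X (i / 2 + 2) - e with hv
  have su : StrictMono u := by
    refine strictMono_int_of_lt_succ fun i => ?_
    simp only [hu]
    rcases Int.emod_two_eq_zero_or_one i with h | h
    · rw [if_pos h, if_neg (by omega), show (i + 1) / 2 = i / 2 by omega]; linarith
    · rw [if_neg (by omega), if_pos (by omega), show (i + 1) / 2 = i / 2 + 1 by omega]
      have := hX (i / 2); linarith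
  have sv : StrictMono v := by
    refine strictMono_int_of_lt_succ fun i => ?_
    simp only [hv]
    rcases Int.emod_two_eq_zero_or_one i with h | h
    · rw [if_pos h, if_neg (by omega), show (i + 1) / 2 = i / 2 by omega]
      have := hX (i / 2 + 1)
      rw [show i / 2 + 1 + 1 = i / 2 + 2 by ring] at this
      linarith
    · rw [if_neg (by omega), if_pos (by omega), show (i + 1) / 2 + 1 = i / 2 + 2 by omega]
      linarith
  have pu : ∀ i, u (i + (2 * n : ℕ)) = u i + 1 := by
    intro i
    simp only [hu]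
    push_cast
    rw [show (i + 2 * (n : ℤ)) % 2 = i % 2 by omega, show (i + 2 * (n : ℤ)) / 2 = i / 2 + n by omega,
      pX]
    split_ifs <;> ring
  have pv : ∀ i, v (i + (2 * n : ℕ)) = v i + 1 := by
    intro i
    simp only [hv]
    push_cast
    rw [show (i + 2 * (n : ℤ)) % 2 = i % 2 by omega, show (i + 2 * (n : ℤ)) / 2 = i / 2 + n by omega,
      show i / 2 + (n : ℤ) + 1 = i / 2 + 1 + n by ring,
      show i / 2 + (n : ℤ) + 2 = i / 2 + 2 + n by ring, pX, pX]
    split_ifs <;> ring
  obtain ⟨a, ha⟩ := exists_unit (2 * n) (by omega) u v su sv pu pv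
  refine ⟨a, fun k => ?_, fun k => ?_⟩
  · have := ha (2 * k)
    simp only [hu, hv] at this
    rw [if_pos (by omega), if_pos (by omega), show 2 * k / 2 = k by omega] at this
    exact this
  · have := ha (2 * k + 1)
    simp only [hu, hv] at this
    rw [if_neg (by omega), if_neg (by omega), show (2 * k + 1) / 2 = k by omega] at this
    exact this

/-- positions of the points of the first orbit -/
def XI (k : ℤ) : ℤ := 20 * (k / 11) + (if k % 11 ≤ 8 then k % 11 else if k % 11 = 9 then 10 else 18)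

/-- positions of the points of the second orbit -/
def YI (k : ℤ) : ℤ := 20 * (k / 9) + (if k % 9 = 0 then 9 else if k % 9 ≤ 7 then 10 + k % 9 else 19)

lemma XI_lt (k : ℤ) : XI k + 1 ≤ XI (k + 1) := by
  unfold XI; split_ifs <;> omega

lemma YI_lt (k : ℤ) : YI k + 1 ≤ YI (k + 1) := by
  unfold YI; split_ifs <;> omega

lemma XI_per (k : ℤ) : XI (k + 11) = XI k + 20 := by
  unfold XI
  rw [show (k + 11) % 11 = k % 11 by omega, show (k + 11) / 11 = k / 11 + 1 by omega]
  ring

lemma YI_per (k : ℤ) : YI (k + 9) = YI k + 20 := by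
  unfold YI
  rw [show (k + 9) % 9 = k % 9 by omega, show (k + 9) / 9 = k / 9 + 1 by omega]
  ring

/-- iteration near the orbit -/
lemma steep_pow (X : ℤ → ℝ) (e : ℝ) (hX : ∀ k, X k + 2 * e < X (k + 1)) (a : CircleDeg1Lift)
    (ha : ∀ k : ℤ, a (X k + e) = X (k + 2) - e) (n : ℕ) (k : ℤ) (z : ℝ) (hz : X k + e ≤ z) :
    X (k + (n + 1 : ℕ) + 1) - e ≤ (a ^ (n + 1)) z := by
  induction n with
  | zero =>
    have := a.monotone hz
    rw [ha] at this
    simpa [show k + (1 : ℤ) + 1 = k + 2 by ring] using this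
  | succ n ih =>
    have h1 : X (k + (n + 1 : ℕ)) + e ≤ (a ^ (n + 1)) z := by
      have := hX (k + (n + 1 : ℕ))
      linarith
    have h2 := a.monotone h1
    rw [ha] at h2
    rw [pow_succ', mul_apply]
    refine le_trans (le_of_eq ?_) h2
    congr 2
    push_cast; ring

/-- the lower bound -/
theorem lower : ∃ a b : CircleDeg1Liftˣ, translationNumber (a : CircleDeg1Lift) = 1 / 11 ∧
    translationNumber (b : CircleDeg1Lift) = 1 / 9 ∧
    13 / 2 ≤ translationNumber (wd (a : CircleDeg1Lift) (b : CircleDeg1Lift)) := by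
  set X : ℤ → ℝ := fun k => (XI k : ℝ) / 20 with hX
  set Y : ℤ → ℝ := fun k => (YI k : ℝ) / 20 with hY
  have gX : ∀ k, X k + 2 * (1 / 60) < X (k + 1) := by
    intro k
    have : ((XI k : ℝ)) + 1 ≤ XI (k + 1) := by exact_mod_cast XI_lt k
    simp only [hX]; linarith
  have gY : ∀ k, Y k + 2 * (1 / 60) < Y (k + 1) := by
    intro k
    have : ((YI k : ℝ)) + 1 ≤ YI (k + 1) := by exact_mod_cast YI_lt k
    simp only [hY]; linarith
  have pX : ∀ k, X (k + (11 : ℕ)) = X k + 1 := by
    intro k
    simp only [hX]; push_cast; rw [XI_per]; push_cast; ring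
  have pY : ∀ k, Y (k + (9 : ℕ)) = Y k + 1 := by
    intro k
    simp only [hY]; push_cast; rw [YI_per]; push_cast; ring
  obtain ⟨a, ha1, ha2⟩ := exists_steep 11 (by norm_num) X (1 / 60) (by norm_num) gX pX
  obtain ⟨b, hb1, hb2⟩ := exists_steep 9 (by norm_num) Y (1 / 60) (by norm_num) gY pY
  have orb : ∀ (f : CircleDeg1Lift) (Z : ℤ → ℝ), (∀ k, f (Z k) = Z (k + 1)) → ∀ n : ℕ, ∀ k : ℤ,
      (f ^ n) (Z k) = Z (k + n) := by
    intro f Z hf n
    induction n with
    | zero => intro k; simp
    | succ n ih =>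
      intro k
      rw [pow_succ, mul_apply, hf, ih]
      congr 1; push_cast; ring
  have ta : translationNumber (a : CircleDeg1Lift) = 1 / 11 := by
    have := translationNumber_of_map_pow_eq_add_int (a : CircleDeg1Lift) (x := X 0) (n := 11)
      (m := 1) (by rw [orb _ X ha1, pX]; norm_num) (by norm_num)
    rw [this]; norm_num
  have tb : translationNumber (b : CircleDeg1Lift) = 1 / 9 := by
    have := translationNumber_of_map_pow_eq_add_int (b : CircleDeg1Lift) (x := Y 0) (n := 9)
      (m := 1) (by rw [orb _ Y hb1, pY]; norm_num) (by norm_num)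
    rw [this]; norm_num
  refine ⟨a, b, ta, tb, ?_⟩
  -- the moves
  have B : ∀ (n : ℕ) (i l : ℤ) (z : ℝ), X i - 1 / 60 ≤ z → YI l < XI i →
      Y (l + (n + 1 : ℕ) + 1) - 1 / 60 ≤ ((b : CircleDeg1Lift) ^ (n + 1)) z := by
    intro n i l z hz hl
    refine steep_pow Y (1 / 60) gY b hb2 n l z ?_
    have : ((YI l : ℝ)) + 1 ≤ XI i := by exact_mod_cast hl
    simp only [hX, hY] at hz ⊢
    linarith
  have A : ∀ (n : ℕ) (i l : ℤ) (z : ℝ), Y i - 1 / 60 ≤ z → XI l < YI i →
      X (l + (n + 1 : ℕ) + 1) - 1 / 60 ≤ ((a : CircleDeg1Lift) ^ (n + 1)) z := by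
    intro n i l z hz hl
    refine steep_pow X (1 / 60) gX a ha2 n l z ?_
    have : ((XI l : ℝ)) + 1 ≤ YI i := by exact_mod_cast hl
    simp only [hX, hY] at hz ⊢
    linarith
  have w1 : ∀ z : ℝ, X 0 - 1 / 60 ≤ z → X 76 - 1 / 60 ≤ wd (a : CircleDeg1Lift) b z := by
    intro z hz
    have s1 := B 0 0 (-1) z hz (by decide)
    have s2 := A 0 1 9 _ s1 (by decide)
    have s3 := B 0 11 8 _ s2 (by decide)
    have s4 := A 0 10 20 _ s3 (by decide)
    have s5 := B 7 22 17 _ s4 (by decide)
    have s6 := A 8 26 32 _ s5 (by decide)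
    have s7 := B 7 42 27 _ s6 (by decide)
    have s8 := A 0 36 52 _ s7 (by decide)
    have s9 := B 0 54 43 _ s8 (by decide)
    have s10 := A 0 45 63 _ s9 (by decide)
    have s11 := B 0 65 52 _ s10 (by decide)
    have s12 := A 0 54 74 _ s11 (by decide)
    unfold wd
    simp only [mul_apply]
    exact s12
  have w2 : ∀ z : ℝ, X 76 - 1 / 60 ≤ z → X 143 - 1 / 60 ≤ wd (a : CircleDeg1Lift) b z := by
    intro z hz
    have s1 := B 0 76 61 z hz (by decide)
    have s2 := A 0 63 85 _ s1 (by decide)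
    have s3 := B 0 87 70 _ s2 (by decide)
    have s4 := A 0 72 96 _ s3 (by decide)
    have s5 := B 7 98 79 _ s4 (by decide)
    have s6 := A 8 88 108 _ s5 (by decide)
    have s7 := B 7 118 89 _ s6 (by decide)
    have s8 := A 0 98 120 _ s7 (by decide)
    have s9 := B 0 122 98 _ s8 (by decide)
    have s10 := A 0 100 130 _ s9 (by decide)
    have s11 := B 0 132 107 _ s10 (by decide)
    have s12 := A 0 109 141 _ s11 (by decide)
    unfold wd
    simp only [mul_apply]
    exact s12
  have h1 : (13 : ℤ) ≤ translationNumber ((wd (a : CircleDeg1Lift) b) ^ 2) :=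
    le_translationNumber_of_add_int_le _ (x := X 0 - 1 / 60) (by
      rw [pow_two, mul_apply]
      have := w2 _ (w1 _ (le_refl (X 0 - 1 / 60)))
      have h3 : X 143 = X 0 + 13 := by
        simp only [hX]
        norm_num [XI]
      rw [h3] at this
      push_cast
      linarith)
  rw [translationNumber_pow] at h1
  push_cast at h1
  linarith

end Pool.Agent.W507.SL
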