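import Mathlib

/-!
# Slippery conjecture: the upper bound, combinatorial part

A kernel-checked decision tree over the comparisons of the points of the two periodic orbits.
-/

set_option autoImplicit false

namespace Pool.Agent.W507.SL

/-- smaller of two numbers -/
def mn (x y : ℕ) : ℕ := bif Nat.ble x y then x else y

/-- index bound for the `Y` orbit from the known comparisons -/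
def upU : List (ℕ × ℕ) → ℕ → ℕ
  | [], i => 9 * ((i + 10) / 11)
  | p :: fs, i => mn (p.2 + 9 * ((i + 10 - p.1) / 11)) (upU fs i)

/-- index bound for the `X` orbit from the known comparisons -/
def upV : List (ℕ × ℕ) → ℕ → ℕ
  | [], j => 11 + 11 * (j / 9)
  | p :: gs, j => mn (p.2 + 11 * ((j + 8 - p.1) / 9)) (upV gs j)

/-- index bound for the image under the word -/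
def G (fs gs : List (ℕ × ℕ)) (i : ℕ) : ℕ :=
  upV gs (upU fs (upV gs (upU fs (upV gs (upU fs (upV gs (upU fs (upV gs (upU fs (upV gs
    (upU fs i + 1) + 1) + 1) + 1) + 8) + 9) + 8) + 1) + 1) + 1) + 1) + 1

/-- decision trees -/
inductive T where
  | L : ℕ → T
  | N : ℕ → ℕ → T → T → T

/-- the checker -/
def chk : T → List (ℕ × ℕ) → List (ℕ × ℕ) → Bool
  | .L k, fs, gs => Nat.ble (G fs gs (G fs gs k)) (k + 143)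
  | .N k l t₁ t₂, fs, gs => Nat.ble k 10 && (Nat.ble l 8 && (chk t₁ ((k, l) :: fs) gs &&
      chk t₂ fs ((l, k) :: gs)))

open T in
/-- the decision tree -/
def tree : T :=
  (N 1 0 (N 2 0 (N 3 0 (N 7 4 (N 6 1 (N 9 5 (N 8 1 (N 9 2 (N 10 5 (N 9 1 (N 9 0 (L 0) (L 0)) (L
  0)) (N 10 7 (N 9 1 (N 9 0 (L 0) (L 0)) (L 0)) (N 10 8 (N 6 0 (N 8 0 (N 9 0 (L 0) (N 9 1 (L 0) (L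
  0))) (N 9 1 (L 0) (L 0))) (N 9 1 (L 0) (L 0))) (N 8 0 (L 0) (L 0))))) (N 10 7 (L 0) (N 6 0 (N 10
  8 (N 8 0 (L 0) (L 0)) (N 8 0 (L 0) (L 0))) (N 10 8 (L 0) (L 0))))) (L 0)) (N 10 7 (L 0) (N 9 7
  (N 8 1 (N 6 0 (N 9 6 (N 10 8 (N 8 0 (L 0) (L 0)) (N 8 0 (L 0) (L 0))) (N 10 8 (N 8 0 (L 0) (L
  0)) (N 8 0 (L 0) (L 0)))) (N 10 8 (L 0) (L 0))) (L 0)) (N 8 5 (N 7 1 (N 6 0 (N 7 0 (N 9 8 (N 8 1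
  (N 10 8 (L 0) (N 8 0 (L 0) (L 0))) (L 0)) (L 0)) (N 9 8 (N 8 1 (N 10 8 (L 0) (L 0)) (L 0)) (L
  0))) (N 9 8 (N 8 1 (N 10 8 (L 0) (L 0)) (L 0)) (L 0))) (L 0)) (N 5 0 (N 6 0 (N 7 1 (N 7 0 (N 9 8
  (L 0) (L 0)) (N 8 7 (N 9 8 (L 0) (L 0)) (N 9 8 (L 0) (N 8 8 (L 0) (L 0))))) (N 8 7 (L 0) (N 8 8
  (L 0) (L 0)))) (N 9 8 (L 0) (N 7 1 (L 0) (N 8 8 (L 0) (L 0))))) (N 9 8 (L 0) (N 7 1 (L 0) (N 8 8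
  (L 0) (L 0))))))))) (L 0)) (N 8 7 (L 0) (N 5 3 (N 4 1 (N 5 1 (N 6 3 (N 7 6 (N 6 1 (N 5 0 (N 6 0
  (N 8 8 (L 0) (L 0)) (N 8 8 (L 0) (L 0))) (N 8 8 (L 0) (L 0))) (L 0)) (N 7 7 (N 6 1 (N 5 0 (N 6 0
  (N 8 8 (L 0) (L 0)) (N 8 8 (L 0) (L 0))) (N 8 8 (L 0) (L 0))) (L 0)) (N 5 0 (N 8 8 (L 0) (N 7 8
  (N 6 1 (N 6 0 (L 0) (L 0)) (L 0)) (L 0))) (N 8 8 (L 0) (N 7 8 (N 6 1 (L 0) (L 0)) (L 0)))))) (N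
  7 7 (L 0) (N 6 6 (N 8 8 (N 5 0 (L 0) (L 0)) (N 7 8 (N 5 0 (L 0) (L 0)) (N 5 0 (L 0) (L 0)))) (N
  6 7 (N 8 8 (N 5 0 (L 0) (L 0)) (N 7 8 (N 5 0 (L 0) (L 0)) (N 5 0 (L 0) (L 0)))) (N 8 8 (N 4 0 (L
  0) (L 0)) (N 4 0 (N 6 8 (N 7 8 (L 0) (N 5 0 (L 0) (L 0))) (L 0)) (N 7 8 (L 0) (L 0)))))))) (N 6
  7 (L 0) (N 4 0 (N 6 8 (L 0) (L 0)) (N 6 8 (L 0) (L 0))))) (L 0)) (N 6 7 (L 0) (N 5 6 (N 4 1 (N 4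
  0 (N 6 8 (L 0) (L 0)) (N 6 8 (L 0) (L 0))) (L 0)) (N 4 3 (N 4 1 (N 4 0 (N 6 8 (L 0) (L 0)) (N 5
  7 (N 6 8 (L 0) (L 0)) (N 6 8 (L 0) (N 5 8 (L 0) (L 0))))) (N 5 7 (L 0) (N 5 8 (L 0) (L 0)))) (N
  5 7 (L 0) (N 5 8 (L 0) (L 0))))))))) (N 3 1 (N 4 1 (N 7 4 (N 6 1 (N 9 5 (N 8 1 (N 9 1 (L 0) (N
  10 8 (L 0) (L 0))) (L 0)) (N 10 8 (L 0) (N 7 2 (N 8 4 (N 7 1 (N 8 1 (L 0) (N 9 8 (L 0) (L 0)))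
  (L 0)) (N 9 8 (L 0) (N 7 1 (L 0) (N 8 8 (L 0) (L 0))))) (N 8 8 (L 0) (L 0))))) (L 0)) (N 8 8 (L
  0) (N 6 5 (N 5 1 (N 6 1 (L 0) (N 7 8 (L 0) (L 0))) (L 0)) (N 7 8 (L 0) (N 6 8 (N 5 1 (L 0) (L
  0)) (L 0)))))) (N 5 7 (L 0) (N 4 5 (N 5 8 (L 0) (L 0)) (N 7 8 (N 4 7 (L 0) (L 0)) (N 4 7 (N 5 8
  (L 0) (L 0)) (N 5 8 (L 0) (N 4 8 (L 0) (L 0)))))))) (N 4 7 (L 0) (N 4 8 (L 0) (L 0))))) (N 2 1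
  (N 3 1 (N 4 1 (N 7 4 (N 6 1 (N 9 5 (N 8 1 (N 9 1 (L 0) (N 10 8 (L 0) (L 0))) (L 0)) (N 10 8 (L
  0) (N 7 2 (N 8 4 (N 7 1 (N 8 1 (L 0) (N 9 8 (L 0) (L 0))) (L 0)) (N 9 8 (L 0) (N 7 1 (L 0) (N 8
  8 (L 0) (L 0))))) (N 8 8 (L 0) (L 0))))) (L 0)) (N 8 8 (L 0) (N 6 5 (N 5 1 (N 6 1 (L 0) (N 7 8
  (L 0) (L 0))) (L 0)) (N 7 8 (L 0) (N 6 8 (N 5 1 (L 0) (L 0)) (L 0)))))) (N 5 8 (L 0) (L 0))) (N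
  4 7 (L 0) (N 7 8 (N 3 7 (L 0) (L 0)) (N 5 8 (N 3 7 (L 0) (L 0)) (N 3 5 (N 4 8 (L 0) (L 0)) (N 3
  7 (N 4 8 (L 0) (L 0)) (N 3 8 (N 4 8 (L 0) (L 0)) (L 0)))))))) (N 3 7 (L 0) (N 3 8 (L 0) (L
  0))))) (N 5 4 (N 10 8 (N 9 5 (N 2 1 (N 9 2 (N 6 1 (N 8 1 (N 9 1 (N 10 2 (N 10 1 (L 0) (L 0)) (L
  0)) (N 10 2 (L 0) (L 0))) (N 10 2 (L 0) (L 0))) (N 10 2 (L 0) (L 0))) (L 0)) (N 10 5 (N 9 4 (N 1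
  1 (N 10 2 (L 0) (L 0)) (N 3 2 (N 10 3 (N 10 2 (L 0) (L 0)) (L 0)) (N 6 3 (N 10 4 (N 8 3 (N 1 2
  (N 10 3 (L 0) (L 0)) (N 10 3 (L 0) (L 0))) (N 1 2 (L 0) (L 0))) (L 0)) (N 1 2 (L 0) (N 3 3 (N 10
  4 (L 0) (L 0)) (N 10 4 (N 1 3 (L 0) (L 0)) (N 1 3 (L 0) (L 0)))))))) (N 1 3 (L 0) (L 0))) (L
  0))) (L 0)) (N 4 1 (N 8 6 (N 7 1 (N 8 1 (L 0) (N 9 8 (L 0) (L 0))) (L 0)) (N 9 8 (L 0) (N 7 6 (N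
  6 1 (N 8 8 (N 7 1 (L 0) (L 0)) (L 0)) (L 0)) (N 8 8 (L 0) (N 6 5 (N 5 1 (N 7 8 (N 6 1 (L 0) (L
  0)) (L 0)) (L 0)) (N 7 8 (L 0) (N 5 1 (L 0) (N 6 8 (L 0) (L 0))))))))) (L 0))) (N 6 6 (N 1 3 (L
  0) (N 10 7 (N 2 4 (N 10 5 (L 0) (L 0)) (N 1 4 (N 10 5 (L 0) (L 0)) (N 9 6 (N 5 5 (N 10 6 (N 10 5
  (L 0) (L 0)) (L 0)) (N 10 6 (N 1 5 (L 0) (L 0)) (N 1 5 (L 0) (L 0)))) (N 1 5 (L 0) (L 0))))) (L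
  0))) (N 3 4 (N 6 8 (L 0) (N 2 1 (N 5 7 (N 4 1 (L 0) (L 0)) (N 4 5 (N 3 1 (N 5 8 (N 4 1 (L 0) (L
  0)) (L 0)) (L 0)) (N 5 8 (L 0) (N 3 1 (L 0) (N 4 8 (L 0) (L 0)))))) (L 0))) (N 4 5 (L 0) (N 2 4
  (N 4 8 (L 0) (N 1 1 (N 2 1 (L 0) (N 3 8 (L 0) (L 0))) (L 0))) (N 3 5 (L 0) (N 3 6 (N 10 7 (N 1 5
  (L 0) (L 0)) (L 0)) (N 1 3 (N 3 7 (L 0) (N 2 6 (N 3 8 (L 0) (N 1 1 (L 0) (L 0))) (N 2 7 (N 3 8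
  (L 0) (N 1 1 (L 0) (L 0))) (N 3 8 (L 0) (N 2 8 (N 1 1 (L 0) (L 0)) (L 0)))))) (N 2 5 (L 0) (N 8
  8 (N 6 7 (N 10 8 (N 1 5 (L 0) (N 8 7 (N 1 6 (N 10 7 (L 0) (L 0)) (N 10 7 (L 0) (L 0))) (N 1 6 (L
  0) (L 0)))) (L 0)) (N 2 6 (L 0) (N 1 5 (N 2 7 (L 0) (L 0)) (N 1 6 (N 2 7 (L 0) (L 0)) (N 3 7 (N
  10 8 (L 0) (L 0)) (N 1 7 (N 2 7 (N 10 8 (L 0) (L 0)) (N 10 8 (L 0) (L 0))) (N 10 8 (L 0) (L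
  0)))))))) (N 2 7 (L 0) (N 2 8 (L 0) (L 0))))))))))))))

theorem chk_tree : chk tree [] [] = true := by decide +kernel

end Pool.Agent.W507.SL
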