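import Pool.Agent.W507.SL.Tree

/-!
# Slippery conjecture: the upper bound

For the word `w = a b a b a b^8 a^9 b^8 a b a b` and homeomorphisms with translation numbers `1/11`
and `1/9`, the translation number of `w` is at most `13/2`.
-/

set_option autoImplicit false

open CircleDeg1Lift

namespace Pool.Agent.W507.SL

lemma mn_eq (x y : ℕ) : mn x y = x ∨ mn x y = y := by
  unfold mn
  cases Nat.ble x y <;> simp

/-- two interleaved periodic orbits -/
structure Cfg (X Y : ℕ → ℝ) : Prop where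
  mX : Monotone X
  mY : Monotone Y
  pX : ∀ k, X (k + 11) = X k + 1
  pY : ∀ l, Y (l + 9) = Y l + 1
  h0 : X 0 ≤ Y 0
  h1 : Y 8 ≤ X 11

variable {X Y : ℕ → ℝ}

lemma Cfg.pXs (h : Cfg X Y) (k s : ℕ) : X (k + 11 * s) = X k + s := by
  induction s with
  | zero => simp
  | succ s ih =>
    rw [show k + 11 * (s + 1) = k + 11 * s + 11 by ring, h.pX, ih]
    push_cast; ring

lemma Cfg.pYs (h : Cfg X Y) (k s : ℕ) : Y (k + 9 * s) = Y k + s := by
  induction s with
  | zero => simp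
  | succ s ih =>
    rw [show k + 9 * (s + 1) = k + 9 * s + 9 by ring, h.pY, ih]
    push_cast; ring

lemma Cfg.stepU (h : Cfg X Y) {k l : ℕ} (hk : k ≤ 10) (hkl : X k ≤ Y l) (i : ℕ) :
    X i ≤ Y (l + 9 * ((i + 10 - k) / 11)) := by
  set s := (i + 10 - k) / 11 with hs
  have h1 : i ≤ k + 11 * s := by omega
  calc X i ≤ X (k + 11 * s) := h.mX h1
    _ = X k + s := h.pXs k s
    _ ≤ Y l + s := by linarith
    _ = Y (l + 9 * s) := (h.pYs l s).symm

lemma Cfg.stepV (h : Cfg X Y) {k l : ℕ} (hl : l ≤ 8) (hkl : Y l ≤ X k) (j : ℕ) :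
    Y j ≤ X (k + 11 * ((j + 8 - l) / 9)) := by
  set s := (j + 8 - l) / 9 with hs
  have h1 : j ≤ l + 9 * s := by omega
  calc Y j ≤ Y (l + 9 * s) := h.mY h1
    _ = Y l + s := h.pYs l s
    _ ≤ X k + s := by linarith
    _ = X (k + 11 * s) := (h.pXs k s).symm

lemma Cfg.upU (h : Cfg X Y) (i : ℕ) : ∀ fs : List (ℕ × ℕ),
    (∀ p ∈ fs, p.1 ≤ 10 ∧ X p.1 ≤ Y p.2) → X i ≤ Y (upU fs i)
  | [], _ => by
    have := h.stepU (by norm_num) h.h0 i
    simpa [SL.upU] using this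
  | p :: fs, hf => by
    have h1 := hf p (by simp)
    have h2 := h.stepU h1.1 h1.2 i
    have h3 := Cfg.upU h i fs (fun q hq => hf q (by simp [hq]))
    unfold SL.upU
    rcases mn_eq (p.2 + 9 * ((i + 10 - p.1) / 11)) (SL.upU fs i) with h4 | h4 <;> rw [h4] <;>
      assumption

lemma Cfg.upV (h : Cfg X Y) (j : ℕ) : ∀ gs : List (ℕ × ℕ),
    (∀ p ∈ gs, p.1 ≤ 8 ∧ Y p.1 ≤ X p.2) → Y j ≤ X (upV gs j)
  | [], _ => by
    have := h.stepV (by norm_num) h.h1 j
    simpa [SL.upV] using this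
  | p :: gs, hf => by
    have h1 := hf p (by simp)
    have h2 := h.stepV h1.1 h1.2 j
    have h3 := Cfg.upV h j gs (fun q hq => hf q (by simp [hq]))
    unfold SL.upV
    rcases mn_eq (p.2 + 11 * ((j + 8 - p.1) / 9)) (SL.upV gs j) with h4 | h4 <;> rw [h4] <;>
      assumption

/-- the word -/
noncomputable def wd (a b : CircleDeg1Lift) : CircleDeg1Lift :=
  a ^ 1 * (b ^ 1 * (a ^ 1 * (b ^ 1 * (a ^ 1 * (b ^ 8 * (a ^ 9 * (b ^ 8 * (a ^ 1 * (b ^ 1 * (a ^ 1 * b ^ 1))))))))))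

section

variable {a b : CircleDeg1Lift}

lemma pow_orbit (hX : ∀ k, a (X k) = X (k + 1)) (n k : ℕ) : (a ^ n) (X k) = X (k + n) := by
  induction n generalizing k with
  | zero => simp
  | succ n ih => rw [pow_succ, mul_apply, hX, ih]; congr 1; ring

lemma Cfg.w_le (h : Cfg X Y) (hX : ∀ k, a (X k) = X (k + 1)) (hY : ∀ k, b (Y k) = Y (k + 1))
    {fs gs : List (ℕ × ℕ)} (hf : ∀ p ∈ fs, p.1 ≤ 10 ∧ X p.1 ≤ Y p.2)
    (hg : ∀ p ∈ gs, p.1 ≤ 8 ∧ Y p.1 ≤ X p.2) {z : ℝ} {i : ℕ} (hz : z ≤ X i) :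
    wd a b z ≤ X (G fs gs i) := by
  have B : ∀ (n i : ℕ) (z : ℝ), z ≤ X i → (b ^ n) z ≤ Y (SL.upU fs i + n) := by
    intro n i z hz
    rw [← pow_orbit hY]
    exact (b ^ n).monotone (hz.trans (h.upU i fs hf))
  have A : ∀ (n j : ℕ) (z : ℝ), z ≤ Y j → (a ^ n) z ≤ X (SL.upV gs j + n) := by
    intro n j z hz
    rw [← pow_orbit hX]
    exact (a ^ n).monotone (hz.trans (h.upV j gs hg))
  unfold wd G
  simp only [mul_apply]
  exact A 1 _ _ (B 1 _ _ (A 1 _ _ (B 1 _ _ (A 1 _ _ (B 8 _ _ (A 9 _ _ (B 8 _ _ (A 1 _ _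
    (B 1 _ _ (A 1 _ _ (B 1 _ _ hz)))))))))))

lemma Cfg.tree_sound (h : Cfg X Y) (hX : ∀ k, a (X k) = X (k + 1))
    (hY : ∀ k, b (Y k) = Y (k + 1)) : ∀ (t : T) (fs gs : List (ℕ × ℕ)),
    (∀ p ∈ fs, p.1 ≤ 10 ∧ X p.1 ≤ Y p.2) → (∀ p ∈ gs, p.1 ≤ 8 ∧ Y p.1 ≤ X p.2) →
    chk t fs gs = true → ∃ z : ℝ, wd a b (wd a b z) ≤ z + 13
  | .L k, fs, gs, hf, hg, hc => by
    refine ⟨X k, ?_⟩
    have h1 := h.w_le hX hY hf hg (h.w_le hX hY hf hg (le_refl (X k)))
    unfold chk at hc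
    have h2 : G fs gs (G fs gs k) ≤ k + 143 := Nat.le_of_ble_eq_true hc
    have h3 := h.mX h2
    have h4 := h.pXs k 13
    norm_num at h4
    linarith
  | .N k l t₁ t₂, fs, gs, hf, hg, hc => by
    unfold chk at hc
    simp only [Bool.and_eq_true] at hc
    obtain ⟨hk, hl, h1, h2⟩ := hc
    have hk' := Nat.le_of_ble_eq_true hk
    have hl' := Nat.le_of_ble_eq_true hl
    rcases le_total (X k) (Y l) with hkl | hkl
    · refine Cfg.tree_sound h hX hY t₁ _ _ ?_ hg h1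
      intro p hp
      rcases List.mem_cons.1 hp with rfl | hp
      · exact ⟨hk', hkl⟩
      · exact hf p hp
    · refine Cfg.tree_sound h hX hY t₂ _ _ hf ?_ h2
      intro p hp
      rcases List.mem_cons.1 hp with rfl | hp
      · exact ⟨hl', hkl⟩
      · exact hg p hp

end

/-- the upper bound -/
theorem upper (a b : CircleDeg1Lift) (ca : Continuous a) (cb : Continuous b)
    (ha : translationNumber a = 1 / 11) (hb : translationNumber b = 1 / 9) :
    translationNumber (wd a b) ≤ 13 / 2 := by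
  obtain ⟨x₀, hx₀⟩ := (translationNumber_eq_rat_iff a ca (m := 1) (n := 11) (by norm_num)).1
    (by rw [ha]; norm_num)
  obtain ⟨y₀, hy₀⟩ := (translationNumber_eq_rat_iff b cb (m := 1) (n := 9) (by norm_num)).1
    (by rw [hb]; norm_num)
  have mono_of : ∀ (f : CircleDeg1Lift) (x : ℝ) (n : ℕ), (f ^ n) x = x + 1 →
      Monotone (fun k : ℕ => (f ^ k) x) := by
    intro f x n hn
    refine monotone_nat_of_le_succ fun k => ?_
    have h1 : x ≤ f x := by
      by_contra hc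
      have hc := le_of_lt (not_le.1 hc)
      have h2 : ∀ k : ℕ, (f ^ k) x ≤ x := by
        intro k
        induction k with
        | zero => simp
        | succ k ih =>
          rw [pow_succ, mul_apply]
          exact ((f ^ k).monotone hc).trans ih
      have := h2 n
      linarith
    rw [pow_succ, mul_apply]
    exact (f ^ k).monotone h1
  have per : ∀ (f : CircleDeg1Lift) (x : ℝ) (n : ℕ), (f ^ n) x = x + 1 → ∀ k : ℕ,
      (f ^ (k + n)) x = (f ^ k) x + 1 := by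
    intro f x n hn k
    rw [pow_add, mul_apply, hn]
    exact (f ^ k).map_add_one x
  -- normalise the second orbit
  set y₁ : ℝ := y₀ + (⌊x₀ - y₀⌋ - 1 : ℤ) with hy₁
  have hy₁x : y₁ < x₀ := by
    have := Int.floor_le (x₀ - y₀)
    rw [hy₁]; push_cast; linarith
  have hx₀' : (a ^ 11) x₀ = x₀ + 1 := by simpa using hx₀
  have hy₁' : (b ^ 9) y₁ = y₁ + 1 := by
    rw [hy₁, map_add_int, hy₀]; push_cast; ring
  have hex : ∃ l : ℕ, x₀ ≤ (b ^ l) y₁ := by
    have h1 : ∀ s : ℕ, (b ^ (9 * s)) y₁ = y₁ + s := by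
      intro s
      induction s with
      | zero => simp
      | succ s ih => rw [show 9 * (s + 1) = 9 * s + 9 by ring, per b y₁ 9 hy₁', ih]; push_cast; ring
    obtain ⟨s, hs⟩ := exists_nat_ge (x₀ - y₁)
    exact ⟨9 * s, by rw [h1]; linarith⟩
  classical
  set l := Nat.find hex with hl
  have hl1 : x₀ ≤ (b ^ l) y₁ := Nat.find_spec hex
  have hl0 : l ≠ 0 := by
    intro h0
    rw [h0] at hl1
    simp at hl1
    linarith
  obtain ⟨l', hl'⟩ := Nat.exists_eq_succ_of_ne_zero hl0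
  have hl2 : (b ^ l') y₁ < x₀ := by
    have := Nat.find_min hex (m := l') (by omega)
    exact not_le.1 this
  have cfg : Cfg (fun k : ℕ => (a ^ k) x₀) (fun k : ℕ => (b ^ (l + k)) y₁) := by
    refine ⟨mono_of a x₀ 11 hx₀', ?_, per a x₀ 11 hx₀', ?_, ?_, ?_⟩
    · intro i j hij
      exact mono_of b y₁ 9 hy₁' (by omega)
    · intro k
      have := per b y₁ 9 hy₁' (l + k)
      simpa [add_assoc] using this
    · simpa using hl1
    · have h1 : (b ^ (l + 8)) y₁ = (b ^ l') y₁ + 1 := by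
        have := per b y₁ 9 hy₁' l'
        rwa [show l' + 9 = l + 8 by omega] at this
      show (b ^ (l + 8)) y₁ ≤ (a ^ 11) x₀
      rw [h1, hx₀']
      linarith
  obtain ⟨z, hz⟩ := cfg.tree_sound (a := a) (b := b) (fun k => by
      show a ((a ^ k) x₀) = (a ^ (k + 1)) x₀
      rw [pow_succ', mul_apply]) (fun k => by
      show b ((b ^ (l + k)) y₁) = (b ^ (l + (k + 1))) y₁
      rw [← add_assoc, pow_succ', mul_apply]) tree [] [] (by simp) (by simp) chk_tree
  have h1 : translationNumber ((wd a b) ^ 2) ≤ (13 : ℤ) :=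
    translationNumber_le_of_le_add_int _ (x := z) (by
      rw [pow_two, mul_apply]; exact_mod_cast hz)
  rw [translationNumber_pow] at h1
  push_cast at h1
  linarith

end Pool.Agent.W507.SL
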